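import Pool.Agent.H159R3.NV.Final

/-!
Equal sums of like powers of numbers with small digits in a common base.
-/

set_option autoImplicit false

namespace Pool.Agent.X5.LPS

open Polynomial Finset

/-- in an identity between `N`-th powers, the terms proportional to a given one cancel -/
theorem class_sum {ι : Type} [Fintype ι] [DecidableEq ι] {N : ℕ}
    (hN : (Fintype.card ι - 1) ^ 2 ≤ N) (R : ι → ℂ[X]) (hR : ∀ i, R i ≠ 0) (c : ι → ℂ)
    (h : ∑ i, C (c i) * R i ^ N = 0) (i₀ : ι) :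
    ∃ I : Finset ι, i₀ ∈ I ∧ (∀ i ∈ I, ∃ l : ℂ, R i = C l * R i₀) ∧
      ∑ i ∈ I, C (c i) * R i ^ N = 0 := by
  classical
  let s : Setoid ι := ⟨fun i j => ∃ l : ℂ, R i = C l * R j, fun i => ⟨1, by simp⟩, by
    rintro i j ⟨l, hl⟩
    have h0 : l ≠ 0 := by
      rintro rfl
      exact hR i (by rw [hl]; simp)
    refine ⟨l⁻¹, ?_⟩
    rw [hl, ← mul_assoc, ← C_mul, inv_mul_cancel₀ h0, C_1, one_mul], by
    rintro i j k ⟨l, hl⟩ ⟨l', hl'⟩
    exact ⟨l * l', by rw [hl, hl', C_mul, mul_assoc]⟩⟩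
  let r : ι → ι := fun i => (Quotient.mk s i).out
  have hr : ∀ i, s (r i) i := fun i => Quotient.mk_out i
  have hr2 : ∀ i j, s i j → r i = r j := by
    intro i j hij
    show (Quotient.mk s i).out = (Quotient.mk s j).out
    rw [Quotient.sound hij]
  have hlam : ∀ i, ∃ l : ℂ, R i = C l * R (r i) := fun i => s.symm (hr i)
  choose lam hlam using hlam
  have hz : ∀ z : ℂ, ∑ t ∈ univ.image r, (∑ i ∈ univ.filter (fun i => r i = t), c i * lam i ^ N) *
      (R t).eval z ^ N = 0 := by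
    intro z
    have h1 : ∑ t ∈ univ.image r, (∑ i ∈ univ.filter (fun i => r i = t), c i * lam i ^ N) *
        (R t).eval z ^ N = ∑ t ∈ univ.image r, ∑ i ∈ univ.filter (fun i => r i = t),
          c i * (R i).eval z ^ N := by
      refine sum_congr rfl fun t _ => ?_
      rw [sum_mul]
      refine sum_congr rfl fun i hi => ?_
      have h2 : r i = t := (mem_filter.1 hi).2
      have h3 : (R i).eval z = lam i * (R t).eval z := by
        conv_lhs => rw [hlam i]
        rw [eval_mul, eval_C, h2]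
      rw [h3, mul_pow]
      ring
    rw [h1, sum_fiberwise_of_maps_to (fun i _ => mem_image_of_mem r (mem_univ i))]
    have h4 := congrArg (eval z) h
    rw [eval_finsetSum, eval_zero] at h4
    rw [← h4]
    exact sum_congr rfl fun i _ => by rw [eval_mul, eval_C, eval_pow]
  have hcard : (univ.image r).card ≤ Fintype.card ι := card_image_le.trans (le_of_eq card_univ)
  have hind := Pool.Agent.H159R3.NV.powers_independent hN (fun i z => (R i).eval z)
    (fun i => (R i).differentiable) (univ.image r) hcard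
    (fun i _ => by
      by_contra hcon
      push Not at hcon
      exact hR i (Polynomial.funext fun z => by rw [hcon z, eval_zero]))
    (fun i hi j hj hij l => by
      by_contra hcon
      push Not at hcon
      obtain ⟨i', -, rfl⟩ := mem_image.1 hi
      obtain ⟨j', -, rfl⟩ := mem_image.1 hj
      refine hij ?_
      have h1 : s (r i') (r j') := ⟨l, Polynomial.funext fun z => by
        rw [eval_mul, eval_C]
        exact sub_eq_zero.1 (hcon z)⟩
      exact hr2 i' j' (s.trans (s.trans (s.symm (hr i')) h1) (hr j')))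
    (fun t => ∑ i ∈ univ.filter (fun i => r i = t), c i * lam i ^ N) hz (r i₀)
    (mem_image_of_mem r (mem_univ i₀))
  refine ⟨univ.filter (fun i => r i = r i₀), by simp, ?_, ?_⟩
  · intro i hi
    have h2 : r i = r i₀ := (mem_filter.1 hi).2
    have h3 : s (r i) i₀ := by
      rw [h2]
      exact hr i₀
    exact s.trans (s.symm (hr i)) h3
  · have h5 : ∑ i ∈ univ.filter (fun i => r i = r i₀), C (c i) * R i ^ N =
        C (∑ i ∈ univ.filter (fun i => r i = r i₀), c i * lam i ^ N) * R (r i₀) ^ N := by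
      rw [map_sum, sum_mul]
      refine sum_congr rfl fun i hi => ?_
      have h2 : r i = r i₀ := (mem_filter.1 hi).2
      have h3 : R i = C (lam i) * R (r i₀) := by
        conv_lhs => rw [hlam i]
        rw [h2]
      rw [h3, mul_pow, C_mul, C_pow]
      ring
    rw [h5]
    have h6 : ∑ i ∈ univ.filter (fun i => r i = r i₀), c i * lam i ^ N = 0 := hind
    rw [h6, C_0, zero_mul]

/-- uniqueness of digits -/
theorem digits_unique {b : ℕ} : ∀ (i : ℕ) (F G : ℕ[X]), F.eval 1 < b → G.eval 1 < b →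
    F.eval b = G.eval b → F.coeff i = G.coeff i := by
  have h0 : ∀ F : ℕ[X], F.coeff 0 ≤ F.eval 1 := by
    intro F
    have h1 := congrArg (eval 1) (divX_mul_X_add F)
    rw [eval_add, eval_mul, eval_X, eval_C, mul_one] at h1
    omega
  have h2 : ∀ F : ℕ[X], F.eval b = F.divX.eval b * b + F.coeff 0 := by
    intro F
    have h1 := congrArg (eval b) (divX_mul_X_add F)
    rw [eval_add, eval_mul, eval_X, eval_C] at h1
    exact h1.symm
  have h3 : ∀ F : ℕ[X], F.divX.eval 1 ≤ F.eval 1 := by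
    intro F
    have h1 := congrArg (eval 1) (divX_mul_X_add F)
    rw [eval_add, eval_mul, eval_X, eval_C, mul_one] at h1
    omega
  have h4 : ∀ F G : ℕ[X], F.eval 1 < b → G.eval 1 < b → F.eval b = G.eval b →
      F.coeff 0 = G.coeff 0 := by
    intro F G hF hG h
    have h5 := congrArg (· % b) h
    simp only [h2 F, h2 G, Nat.mul_add_mod_self_right] at h5
    rwa [Nat.mod_eq_of_lt ((h0 F).trans_lt hF), Nat.mod_eq_of_lt ((h0 G).trans_lt hG)] at h5
  intro i
  induction i with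
  | zero => exact h4
  | succ i ih =>
    intro F G hF hG h
    rw [← coeff_divX, ← coeff_divX]
    refine ih _ _ ((h3 F).trans_lt hF) ((h3 G).trans_lt hG) ?_
    have h5 := h4 F G hF hG h
    rw [h2 F, h2 G, h5] at h
    have hb : 0 < b := by omega
    exact Nat.eq_of_mul_eq_mul_right hb (by omega)

theorem bern (t : ℕ) : ∀ k : ℕ, t ^ k * (t + k) ≤ (t + 1) ^ k * t
  | 0 => by simp
  | k + 1 => by
    have h := bern t k
    calc t ^ (k + 1) * (t + (k + 1)) = t ^ k * (t * (t + k + 1)) := by ring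
      _ ≤ t ^ k * ((t + 1) * (t + k)) := Nat.mul_le_mul_left _ (by nlinarith)
      _ = (t + 1) * (t ^ k * (t + k)) := by ring
      _ ≤ (t + 1) * ((t + 1) ^ k * t) := Nat.mul_le_mul_left _ h
      _ = (t + 1) ^ (k + 1) * t := by ring

theorem half {α β : Type} {k : ℕ} (I : Finset α) (J : Finset β) (a : α → ℕ) (c : β → ℕ)
    (hJ : J.Nonempty) (hc : ∀ j ∈ J, 0 < c j) (he : ∑ i ∈ I, a i ^ k = ∑ j ∈ J, c j ^ k)
    (i : α) (hi : i ∈ I) (hlt : ∀ j ∈ J, c j < a i) : k ≤ J.card * (a i - 1) := by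
  obtain ⟨t, ht⟩ : ∃ t, a i = t + 1 := ⟨a i - 1, by
    obtain ⟨j, hj⟩ := hJ
    have := hlt j hj
    omega⟩
  have ht0 : 0 < t := by
    obtain ⟨j, hj⟩ := hJ
    have := hlt j hj
    have := hc j hj
    omega
  rw [ht, Nat.add_sub_cancel]
  have h1 : (t + 1) ^ k ≤ J.card * t ^ k := by
    calc (t + 1) ^ k = a i ^ k := by rw [ht]
      _ ≤ ∑ i ∈ I, a i ^ k := single_le_sum (f := fun i => a i ^ k) (fun _ _ => Nat.zero_le _) hi
      _ = ∑ j ∈ J, c j ^ k := he
      _ ≤ ∑ _j ∈ J, t ^ k := sum_le_sum fun j hj => Nat.pow_le_pow_left (by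
          have := hlt j hj
          omega) _
      _ = J.card * t ^ k := by rw [sum_const, smul_eq_mul]
  have h2 : t ^ k * (t + k) ≤ t ^ k * (J.card * t) := by
    calc t ^ k * (t + k) ≤ (t + 1) ^ k * t := bern t k
      _ ≤ J.card * t ^ k * t := Nat.mul_le_mul_right _ h1
      _ = t ^ k * (J.card * t) := by ring
  have h3 := Nat.le_of_mul_le_mul_left h2 (by positivity)
  omega

theorem bound {α β : Type} {k H : ℕ} (I : Finset α) (J : Finset β) (a : α → ℕ) (c : β → ℕ)
    (hI : I.Nonempty) (hJ : J.Nonempty) (ha : ∀ i ∈ I, 0 < a i ∧ a i ≤ H)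
    (hc : ∀ j ∈ J, 0 < c j ∧ c j ≤ H) (he : ∑ i ∈ I, a i ^ k = ∑ j ∈ J, c j ^ k)
    (hne : ∀ i ∈ I, ∀ j ∈ J, a i ≠ c j) : k ≤ max I.card J.card * (H - 1) := by
  obtain ⟨i, hi, hmi⟩ := exists_max_image I a hI
  obtain ⟨j, hj, hmj⟩ := exists_max_image J c hJ
  rcases lt_or_gt_of_ne (hne i hi j hj) with h | h
  · refine (half J I c a hI (fun i hi => (ha i hi).1) he.symm j hj
      (fun i' hi' => (hmi i' hi').trans_lt h)).trans ?_
    exact Nat.mul_le_mul (le_max_left _ _) (Nat.sub_le_sub_right (hc j hj).2 1)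
  · refine (half I J a c hJ (fun j hj => (hc j hj).1) he i hi
      (fun j' hj' => (hmj j' hj').trans_lt h)).trans ?_
    exact Nat.mul_le_mul (le_max_right _ _) (Nat.sub_le_sub_right (ha i hi).2 1)

theorem eval_one_ge (P : ℕ[X]) (i : ℕ) : P.coeff i ≤ P.eval 1 := by
  rw [eval_eq_sum_range]
  simp only [one_pow, mul_one]
  by_cases h : i ≤ P.natDegree
  · exact single_le_sum (f := fun j => P.coeff j) (fun _ _ => Nat.zero_le _)
      (mem_range.2 (by omega))
  · rw [coeff_eq_zero_of_natDegree_lt (by omega : P.natDegree < i)]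
    exact Nat.zero_le _

/-- equal sums of like powers of numbers with small digits -/
theorem main {k n m : ℕ} (hn : 0 < n) (hk : (n + m - 1) ^ 2 ≤ k) {H b : ℕ}
    (hbn : n * H ^ k < b) (hbm : m * H ^ k < b) (P : Fin n → ℕ[X]) (Q : Fin m → ℕ[X])
    (hP : ∀ i, P i ≠ 0 ∧ (P i).eval 1 ≤ H) (hQ : ∀ j, Q j ≠ 0 ∧ (Q j).eval 1 ≤ H)
    (he : ∑ i, (P i).eval b ^ k = ∑ j, (Q j).eval b ^ k)
    (hne : ∀ i j, (P i).eval b ≠ (Q j).eval b) :
    ∃ (I : Finset (Fin n)) (J : Finset (Fin m)), I.Nonempty ∧ J.Nonempty ∧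
      (∀ i ∈ I, 0 < (P i).leadingCoeff ∧ (P i).leadingCoeff ≤ H) ∧
      (∀ j ∈ J, 0 < (Q j).leadingCoeff ∧ (Q j).leadingCoeff ≤ H) ∧
      ∑ i ∈ I, (P i).leadingCoeff ^ k = ∑ j ∈ J, (Q j).leadingCoeff ^ k ∧
      ∀ i ∈ I, ∀ j ∈ J, (P i).leadingCoeff ≠ (Q j).leadingCoeff := by
  classical
  have hid : ∑ i, P i ^ k = ∑ j, Q j ^ k := by
    ext i
    refine digits_unique (b := b) i _ _ ?_ ?_ ?_
    · rw [eval_finsetSum]
      refine lt_of_le_of_lt (sum_le_sum fun i _ => ?_) (lt_of_eq_of_lt ?_ hbn) (b := ∑ _i : Fin n, H ^ k)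
      · rw [eval_pow]
        exact Nat.pow_le_pow_left (hP i).2 _
      · simp
    · rw [eval_finsetSum]
      refine lt_of_le_of_lt (sum_le_sum fun i _ => ?_) (lt_of_eq_of_lt ?_ hbm) (b := ∑ _i : Fin m, H ^ k)
      · rw [eval_pow]
        exact Nat.pow_le_pow_left (hQ i).2 _
      · simp
    · rw [eval_finsetSum, eval_finsetSum]
      simpa only [eval_pow] using he
  let f : ℕ →+* ℂ := Nat.castRingHom ℂ
  have hf : Function.Injective f := Nat.cast_injective
  let Rn : Fin n ⊕ Fin m → ℕ[X] := Sum.elim P Q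
  let R : Fin n ⊕ Fin m → ℂ[X] := fun t => (Rn t).map f
  let c : Fin n ⊕ Fin m → ℂ := Sum.elim (fun _ => 1) (fun _ => -1)
  have hRn : ∀ t, Rn t ≠ 0 := by
    rintro (i | j)
    · exact (hP i).1
    · exact (hQ j).1
  have hR : ∀ t, R t ≠ 0 := fun t h => hRn t ((Polynomial.map_eq_zero_iff hf).1 h)
  have hc : ∑ t, C (c t) * R t ^ k = 0 := by
    rw [Fintype.sum_sum_type]
    have h1 : ∑ i, C (c (Sum.inl i)) * R (Sum.inl i) ^ k = (∑ i, P i ^ k).map f := by
      rw [Polynomial.map_sum]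
      refine sum_congr rfl fun i _ => ?_
      show C (1 : ℂ) * (P i).map f ^ k = (P i ^ k).map f
      rw [C_1, one_mul, Polynomial.map_pow]
    have h2 : ∑ j, C (c (Sum.inr j)) * R (Sum.inr j) ^ k = - (∑ j, Q j ^ k).map f := by
      rw [Polynomial.map_sum, ← sum_neg_distrib]
      refine sum_congr rfl fun i _ => ?_
      show C (-1 : ℂ) * (Q i).map f ^ k = -(Q i ^ k).map f
      rw [C_neg, C_1, neg_one_mul, Polynomial.map_pow]
    rw [h1, h2, hid, add_neg_cancel]
  have hcard : (Fintype.card (Fin n ⊕ Fin m) - 1) ^ 2 ≤ k := by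
    rw [Fintype.card_sum, Fintype.card_fin, Fintype.card_fin]
    exact hk
  obtain ⟨S, h0, hS, hsum⟩ := class_sum hcard R hR c hc (Sum.inl ⟨0, hn⟩)
  have hlead : ∀ t, (R t).leadingCoeff = ((Rn t).leadingCoeff : ℂ) := fun t =>
    leadingCoeff_map_of_injective hf _
  have hdeg : ∀ t ∈ S, (R t).natDegree = (R (Sum.inl ⟨0, hn⟩)).natDegree := by
    intro t ht
    obtain ⟨l, hl⟩ := hS t ht
    have hl0 : l ≠ 0 := by
      rintro rfl
      exact hR t (by rw [hl]; simp)
    rw [hl, natDegree_C_mul hl0]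
  have htop : ∑ t ∈ S, c t * ((Rn t).leadingCoeff : ℂ) ^ k = 0 := by
    have h1 := congrArg (fun p : ℂ[X] => p.coeff (k * (R (Sum.inl ⟨0, hn⟩)).natDegree)) hsum
    simp only [finsetSum_coeff, coeff_C_mul, coeff_zero] at h1
    rw [← h1]
    refine sum_congr rfl fun t ht => ?_
    rw [← hlead t, ← hdeg t ht, coeff_pow_mul_natDegree]
  -- split
  have hsplit : ∀ g : Fin n ⊕ Fin m → ℂ, ∑ t ∈ S, g t =
      ∑ i ∈ univ.filter (fun i : Fin n => Sum.inl i ∈ S), g (Sum.inl i) +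
      ∑ j ∈ univ.filter (fun j : Fin m => Sum.inr j ∈ S), g (Sum.inr j) := by
    intro g
    have h1 : ∑ t ∈ S, g t = ∑ t, if t ∈ S then g t else 0 := by
      rw [← sum_filter, filter_mem_eq_inter, univ_inter]
    rw [h1, Fintype.sum_sum_type, sum_filter, sum_filter]
  have hmain : ∑ i ∈ univ.filter (fun i : Fin n => Sum.inl i ∈ S), (P i).leadingCoeff ^ k =
      ∑ j ∈ univ.filter (fun j : Fin m => Sum.inr j ∈ S), (Q j).leadingCoeff ^ k := by
    rw [hsplit] at htop
    have h1 : ∑ i ∈ univ.filter (fun i : Fin n => Sum.inl i ∈ S),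
        c (Sum.inl i) * ((Rn (Sum.inl i)).leadingCoeff : ℂ) ^ k =
        ((∑ i ∈ univ.filter (fun i : Fin n => Sum.inl i ∈ S), (P i).leadingCoeff ^ k : ℕ) : ℂ) := by
      push_cast
      refine sum_congr rfl fun i _ => ?_
      show (1 : ℂ) * ((P i).leadingCoeff : ℂ) ^ k = _
      rw [one_mul]
    have h2 : ∑ j ∈ univ.filter (fun j : Fin m => Sum.inr j ∈ S),
        c (Sum.inr j) * ((Rn (Sum.inr j)).leadingCoeff : ℂ) ^ k =
        -((∑ j ∈ univ.filter (fun j : Fin m => Sum.inr j ∈ S), (Q j).leadingCoeff ^ k : ℕ) : ℂ) := by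
      push_cast
      rw [← sum_neg_distrib]
      refine sum_congr rfl fun i _ => ?_
      show (-1 : ℂ) * ((Q i).leadingCoeff : ℂ) ^ k = _
      rw [neg_one_mul]
    rw [h1, h2, ← sub_eq_add_neg, sub_eq_zero] at htop
    exact_mod_cast htop
  have hPos : ∀ i, 0 < (P i).leadingCoeff ∧ (P i).leadingCoeff ≤ H := fun i =>
    ⟨Nat.pos_of_ne_zero (leadingCoeff_ne_zero.2 (hP i).1), (eval_one_ge _ _).trans (hP i).2⟩
  have hQos : ∀ j, 0 < (Q j).leadingCoeff ∧ (Q j).leadingCoeff ≤ H := fun j =>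
    ⟨Nat.pos_of_ne_zero (leadingCoeff_ne_zero.2 (hQ j).1), (eval_one_ge _ _).trans (hQ j).2⟩
  have hI : (univ.filter (fun i : Fin n => Sum.inl i ∈ S)).Nonempty :=
    ⟨⟨0, hn⟩, mem_filter.2 ⟨mem_univ _, h0⟩⟩
  refine ⟨_, _, hI, ?_, fun i _ => hPos i, fun j _ => hQos j, hmain, ?_⟩
  · by_contra hcon
    rw [not_nonempty_iff_eq_empty] at hcon
    rw [hcon, sum_empty] at hmain
    obtain ⟨i, hi⟩ := hI
    have h1 : 0 < ∑ i ∈ univ.filter (fun i : Fin n => Sum.inl i ∈ S), (P i).leadingCoeff ^ k :=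
      sum_pos (fun i _ => Nat.pow_pos (hPos i).1) ⟨i, hi⟩
    omega
  · intro i hi j hj hij
    obtain ⟨l, hl⟩ := hS _ (mem_filter.1 hi).2
    obtain ⟨l', hl'⟩ := hS _ (mem_filter.1 hj).2
    have h1 : (R (Sum.inl i)).leadingCoeff = (R (Sum.inr j)).leadingCoeff := by
      rw [hlead, hlead]
      exact congrArg Nat.cast hij
    rw [hl, hl', leadingCoeff_mul, leadingCoeff_mul, leadingCoeff_C, leadingCoeff_C] at h1
    have h2 : l = l' := mul_right_cancel₀ (leadingCoeff_ne_zero.2 (hR _)) h1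
    have h3 : R (Sum.inl i) = R (Sum.inr j) := by rw [hl, hl', h2]
    have h4 : P i = Q j := Polynomial.map_injective f hf h3
    exact hne i j (by rw [h4])

end Pool.Agent.X5.LPS
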