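import Pool.Agent.X5.LPS.Core

/-!
Equal sums of like powers of positive integers with small digit sums in a common base.
-/

set_option autoImplicit false

namespace Pool.Agent.X5.LPS

open Polynomial Finset

/-- the polynomial with given coefficients -/
noncomputable def pol : List ℕ → ℕ[X]
  | [] => 0
  | a :: l => C a + X * pol l

theorem pol_eval (b : ℕ) : ∀ l : List ℕ, (pol l).eval b = Nat.ofDigits b l
  | [] => by simp [pol]
  | a :: l => by
    rw [pol, eval_add, eval_mul, eval_C, eval_X, pol_eval b l, Nat.ofDigits_cons]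

theorem mainN {k n m : ℕ} (hn : 0 < n) (hk : (n + m - 1) ^ 2 ≤ k) {H b : ℕ}
    (hbn : n * H ^ k < b) (hbm : m * H ^ k < b) (x : Fin n → ℕ) (y : Fin m → ℕ)
    (hx : ∀ i, 0 < x i ∧ (b.digits (x i)).sum ≤ H) (hy : ∀ j, 0 < y j ∧ (b.digits (y j)).sum ≤ H)
    (he : ∑ i, x i ^ k = ∑ j, y j ^ k) (hne : ∀ i j, x i ≠ y j) :
    (∃ (I : Finset (Fin n)) (J : Finset (Fin m)) (a : Fin n → ℕ) (c : Fin m → ℕ),
      I.Nonempty ∧ J.Nonempty ∧ (∀ i ∈ I, 0 < a i ∧ a i ≤ H) ∧ (∀ j ∈ J, 0 < c j ∧ c j ≤ H) ∧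
      ∑ i ∈ I, a i ^ k = ∑ j ∈ J, c j ^ k ∧ ∀ i ∈ I, ∀ j ∈ J, a i ≠ c j) ∧
    k ≤ max n m * (H - 1) := by
  have hev : ∀ z : ℕ, (pol (b.digits z)).eval b = z := fun z => by
    rw [pol_eval, Nat.ofDigits_digits]
  have hev1 : ∀ z : ℕ, (pol (b.digits z)).eval 1 = (b.digits z).sum := fun z => by
    rw [pol_eval, Nat.ofDigits_one]
  have hnz : ∀ z : ℕ, 0 < z → pol (b.digits z) ≠ 0 := by
    intro z hz h
    have h1 := hev z
    rw [h, eval_zero] at h1
    omega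
  obtain ⟨I, J, hI, hJ, ha, hc, hs, hn2⟩ := main (b := b) (H := H) hn hk hbn hbm
    (fun i => pol (b.digits (x i))) (fun j => pol (b.digits (y j)))
    (fun i => ⟨hnz _ (hx i).1, (hev1 _).trans_le (hx i).2⟩)
    (fun j => ⟨hnz _ (hy j).1, (hev1 _).trans_le (hy j).2⟩)
    (by simpa only [hev] using he) (fun i j => by simpa only [hev] using hne i j)
  refine ⟨⟨I, J, _, _, hI, hJ, ha, hc, hs, hn2⟩, ?_⟩
  refine (bound I J _ _ hI hJ ha hc hs hn2).trans (Nat.mul_le_mul_right _ ?_)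
  have h1 : I.card ≤ n := by simpa using card_le_univ I
  have h2 : J.card ≤ m := by simpa using card_le_univ J
  exact max_le_max h1 h2

end Pool.Agent.X5.LPS
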