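import Pool.Agent.X5.LPS.Dig

/-!
Few `n`-th powers summing to an `n`-th power.
-/

set_option autoImplicit false

namespace Pool.Agent.X5.LPS

theorem one_side (n k : ℕ) (hk2 : 2 ≤ k) (hk : k ^ 2 ≤ n) (H b : ℕ) (hb : k * H ^ n < b)
    (a : Fin k → ℕ) (c : ℕ) (ha : ∀ i, 0 < a i ∧ (b.digits (a i)).sum ≤ H)
    (hc : 0 < c ∧ (b.digits c).sum ≤ H) (he : ∑ i, a i ^ n = c ^ n) :
    (∃ (I : Finset (Fin k)) (u : Fin k → ℕ) (v : ℕ), 2 ≤ I.card ∧ (∀ i ∈ I, 0 < u i) ∧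
      0 < v ∧ v ≤ H ∧ ∑ i ∈ I, u i ^ n = v ^ n) ∧ n ≤ k * (H - 1) := by
  have hn0 : n ≠ 0 := by
    rintro rfl
    have : 0 < k ^ 2 := by positivity
    omega
  have hlt : ∀ i, a i < c := by
    intro i
    by_contra hcon
    rw [not_lt] at hcon
    obtain ⟨j, hj⟩ : ∃ j : Fin k, j ≠ i := by
      by_cases h0 : i.1 = 0
      · exact ⟨⟨1, by omega⟩, fun h => by rw [← h] at h0; exact absurd h0 (by simp)⟩
      · exact ⟨⟨0, by omega⟩, fun h => h0 (by rw [← h])⟩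
    have h1 : a i ^ n + a j ^ n ≤ ∑ i, a i ^ n := by
      rw [← Finset.sum_pair (f := fun i => a i ^ n) hj.symm]
      exact Finset.sum_le_univ_sum_of_nonneg (fun _ => Nat.zero_le _)
    have h2 : c ^ n ≤ a i ^ n := Nat.pow_le_pow_left hcon n
    have h3 : 0 < a j ^ n := Nat.pow_pos (ha j).1
    omega
  obtain ⟨⟨I, J, u, v, hI, hJ, hu, hv, hs, hne⟩, hbd⟩ := Pool.Agent.X5.LPS.mainN (k := n)
    (n := k) (m := 1) (H := H) (b := b) (by omega) (by rw [Nat.add_sub_cancel]; exact hk) hb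
    (lt_of_le_of_lt (Nat.mul_le_mul_right _ (by omega)) hb) a (fun _ => c) ha (fun _ => hc)
    (by simpa using he) (fun i _ => (hlt i).ne)
  have hJ1 : J = Finset.univ := by
    refine Finset.eq_univ_of_forall fun j => ?_
    obtain ⟨j', hj'⟩ := hJ
    rwa [Subsingleton.elim j j']
  have hs' : ∑ i ∈ I, u i ^ n = v 0 ^ n := by
    rw [hs, hJ1]
    simp
  refine ⟨⟨I, u, v 0, ?_, fun i hi => (hu i hi).1, (hv 0 (by rw [hJ1]; simp)).1,
    (hv 0 (by rw [hJ1]; simp)).2, hs'⟩, ?_⟩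
  · by_contra hcon
    have h1 : 0 < I.card := Finset.card_pos.2 hI
    obtain ⟨i, hi⟩ := Finset.card_eq_one.1 (by omega : I.card = 1)
    rw [hi, Finset.sum_singleton] at hs'
    exact hne i (by rw [hi]; simp) 0 (by rw [hJ1]; simp) (Nat.pow_left_injective hn0 hs')
  · rwa [max_eq_left (by omega)] at hbd

end Pool.Agent.X5.LPS
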